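import Pool.Agent.H916N.Three

/-!
# Linked residues and the main theorem
-/

set_option linter.unusedSectionVars false

namespace Pool.Agent.H916N

open Finset Pool.Agent.H916R2 Pool.Agent.H916T Pool.Agent.H916U Pool.Agent.H916Z Pool.Agent.H916Q

variable {p : ℕ}

/-- parities, also at even levels -/
theorem parity_all3 {m n k : ℕ} (hn : 0 < n) (hk : k = 1 ∨ k = 2) (hkn : k * n = m)
    (hn2 : ¬ 2 ∣ n) (hp : p.Coprime m) (hQR : PQR n)
    (hsq : ∀ l : ℕ, l.Prime → l ∣ n → IsSquare ((p : ℕ) : ZMod l))
    {s : Multiset (ZMod m)} (hs : Rel0 p s) (S : Finset ℕ) {l : ℕ} (hlS : l ∈ S)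
    (hl3 : l % 4 = 3) (h2S : 2 ∉ S) : Even (s.countP (Supp S)) := by
  have hk0 : 0 < k := by omega
  have hm : 0 < m := by rw [← hkn]; exact Nat.mul_pos hk0 hn
  have hz : NeZero n := ⟨hn.ne'⟩
  have hz1 : NeZero m := ⟨hm.ne'⟩
  have hnm : n ∣ m := Dvd.intro_left k hkn
  have hpn : p.Coprime n := Nat.Coprime.coprime_dvd_right hnm hp
  obtain ⟨s', hs', hs2⟩ := oddize2 hk n m hn hn2 hkn s
  have hrel : Rel0 p s' := by
    intro t0
    obtain ⟨t, ht⟩ := ZMod.unitsMap_surjective hnm t0
    have h1 := hs' ℤ _ (W_iod hp t).iod.od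
    rw [hs t] at h1
    obtain ⟨r, hr00, hr⟩ := W_iota' (k := k) (m0 := n) (m := m) hp hkn
    have h3 : ∀ x : ZMod n, W p ((t : ZMod m) * iota k x) =
        (k : ℤ) * (r : ℤ) * W p ((t0 : ZMod n) * x) := by
      intro x
      rw [unit_iota hkn, hr, ht]
    simp only [h3] at h1
    rw [Multiset.sum_map_mul_left] at h1
    simpa [hr00.ne', hk0.ne'] using h1.symm
  exact (hs2 S h2S).mp (parity_three hn2 hpn hQR hsq hrel S hlS hl3)

/-- supersingular residues -/
lemma W_ss {m l a m' : ℕ} [NeZero m] (hm : l ^ a * m' = m) (hl : l.Prime) (hlm : ¬ l ∣ m')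
    (hp : p.Coprime m) {r : ℕ} (hr : (p : ZMod m') ^ r = -1) {b : ZMod m}
    (hb : ¬ l ∣ addOrderOf b) (t : (ZMod m)ˣ) : W p ((t : ZMod m) * b) = 0 := by
  have hm'0 : m' ≠ 0 := by rintro rfl; exact NeZero.ne m (by rw [← hm, mul_zero])
  have hz : NeZero m' := ⟨hm'0⟩
  have h1 : (m' : ℕ) • ((t : ZMod m) * b) = 0 := by
    have h2 : addOrderOf b ∣ m' := by
      have h3 : addOrderOf b ∣ l ^ a * m' := (addOrderOf_dvd_level b).trans (dvd_of_eq hm.symm)
      have h4 : (addOrderOf b).Coprime (l ^ a) :=
        Nat.Coprime.pow_right a ((Nat.Prime.coprime_iff_not_dvd hl).mpr hb).symm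
      exact h4.dvd_of_dvd_mul_left h3
    have h5 : m' • b = 0 := addOrderOf_dvd_iff_nsmul_eq_zero.mp h2
    rw [nsmul_eq_mul] at h5 ⊢
    rw [mul_left_comm, h5, mul_zero]
  set c : ZMod m := (t : ZMod m) * b with hc
  have h2 : l ^ a ∣ c.val := by
    have h3 : ((m' * c.val : ℕ) : ZMod m) = 0 := by
      rw [nsmul_eq_mul] at h1
      push_cast; rw [ZMod.natCast_zmod_val]; exact h1
    rw [ZMod.natCast_eq_zero_iff] at h3
    have h4 : m' * l ^ a ∣ m' * c.val := by
      rw [mul_comm m' (l ^ a)]
      exact (dvd_of_eq hm).trans h3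
    exact (Nat.mul_dvd_mul_iff_left (Nat.pos_of_ne_zero hm'0)).mp h4
  obtain ⟨y, hy⟩ := h2
  have h3 : c = iota (l ^ a) ((y : ℕ) : ZMod m') := by
    rw [iota_natCast hm, ← hy, ZMod.natCast_zmod_val]
  obtain ⟨r', _, hr'⟩ := W_iota' (k := l ^ a) (m0 := m') (m := m) hp hm
  rw [h3, hr', super_W hr, mul_zero]

open scoped Classical in
theorem link_parity3 {m l : ℕ} [NeZero m] (hl2 : l ≠ 2)
    (hW : ∀ b : ZMod m, ¬ l ∣ addOrderOf b → ∀ t : (ZMod m)ˣ, W p ((t : ZMod m) * b) = 0)
    (hl : l.Prime) {s : Multiset (ZMod m)} (h0 : (0 : ZMod m) ∉ s) (hcard : Even (Multiset.card s))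
    (hpar : ∀ S : Finset ℕ, l ∈ S → 2 ∉ S → Even (s.countP (Supp S))) (a : ZMod m) :
    Even (s.countP (fun b => Relation.EqvGen (Link p) a b)) := by
  set R : ZMod m → Prop := fun b => 2 ∣ addOrderOf b ∨ ¬ l ∣ addOrderOf b with hR
  have hcount : ∀ K : Finset ℕ,
      Even (s.countP fun b => (addOrderOf b).primeFactors = K ∧ ¬ R b) := by
    intro K
    by_cases h2 : 2 ∈ K
    · have h1 : s.countP (fun b => (addOrderOf b).primeFactors = K ∧ ¬ R b) = 0 := by
        rw [Multiset.countP_eq_zero]
        rintro b _ ⟨hb, hb2⟩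
        rw [← hb] at h2
        exact hb2 (Or.inl (Nat.mem_primeFactors.mp h2).2.1)
      rw [h1]; exact Even.zero
    · by_cases hlK : l ∈ K
      · have h1 : s.countP (fun b => (addOrderOf b).primeFactors = K ∧ ¬ R b) =
            s.countP (Supp K) := by
          apply Multiset.countP_congr rfl
          intro b _
          simp only [eq_iff_iff]
          constructor
          · exact fun h => h.1
          · intro h
            refine ⟨h, fun h' => ?_⟩
            rcases h' with h' | h'
            · apply h2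
              rw [← h]
              exact Nat.mem_primeFactors.mpr ⟨Nat.prime_two, h', (addOrderOf_pos b).ne'⟩
            · apply h'
              rw [← h] at hlK
              exact (Nat.mem_primeFactors.mp hlK).2.1
        rw [h1]
        exact hpar K hlK h2
      · have h1 : s.countP (fun b => (addOrderOf b).primeFactors = K ∧ ¬ R b) = 0 := by
          rw [Multiset.countP_eq_zero]
          rintro b _ ⟨hb, hb2⟩
          apply hb2
          right
          intro h'
          apply hlK
          rw [← hb]
          exact Nat.mem_primeFactors.mpr ⟨hl, h', (addOrderOf_pos b).ne'⟩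
        rw [h1]; exact Even.zero
  have hodd : Even ((s.filter fun b => ¬ R b).countP fun _ => True) := by
    refine even_of_key (fun b : ZMod m => (addOrderOf b).primeFactors) _ _ _ rfl ?_
      (fun _ _ _ _ _ => Iff.rfl)
    intro K
    rw [Multiset.countP_filter]
    exact hcount K
  have heven : Even (s.countP R) := by
    have h1 := Multiset.card_eq_countP_add_countP R s
    rw [Multiset.countP_True, ← Multiset.countP_eq_card_filter] at hodd
    rw [h1] at hcard
    exact (Nat.even_add.mp hcard).mpr hodd
  have hl2' : l ∉ ({2} : Finset ℕ) := by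
    rw [mem_singleton]; exact hl2
  have hnR : ∀ b : ZMod m, ¬ R b → (addOrderOf b).primeFactors ≠ {2} := by
    intro b hb h
    apply hb
    right
    intro h'
    apply hl2'
    rw [← h]
    exact Nat.mem_primeFactors.mpr ⟨hl, h', (addOrderOf_pos b).ne'⟩
  refine even_of_key (fun b : ZMod m => if R b then ({2} : Finset ℕ) else
    (addOrderOf b).primeFactors) _ _ s rfl ?_ ?_
  · intro K
    by_cases hK2 : K = {2}
    · have h1 : s.countP (fun b => (if R b then ({2} : Finset ℕ) else
          (addOrderOf b).primeFactors) = K) = s.countP R := by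
        apply Multiset.countP_congr rfl
        intro b _
        simp only [eq_iff_iff]
        constructor
        · intro h
          by_contra h'
          rw [if_neg h', hK2] at h
          exact hnR b h' h
        · intro h
          rw [if_pos h, hK2]
      rw [h1]; exact heven
    · have h1 : s.countP (fun b => (if R b then ({2} : Finset ℕ) else
          (addOrderOf b).primeFactors) = K) =
          s.countP (fun b => (addOrderOf b).primeFactors = K ∧ ¬ R b) := by
        apply Multiset.countP_congr rfl
        intro b _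
        simp only [eq_iff_iff]
        constructor
        · intro h
          by_cases h' : R b
          · rw [if_pos h'] at h; exact absurd h.symm hK2
          · rw [if_neg h'] at h; exact ⟨h, h'⟩
        · rintro ⟨h, h'⟩
          rw [if_neg h']; exact h
      rw [h1]
      exact hcount K
  · intro b hb c hc hbc
    have hb0 : b ≠ 0 := fun h => h0 (h ▸ hb)
    have hc0 : c ≠ 0 := fun h => h0 (h ▸ hc)
    have hlink : Relation.EqvGen (Link p) b c := by
      by_cases h1 : R b
      · by_cases h2 : R c
        · by_cases h3 : 2 ∣ m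
          · obtain ⟨d, hd⟩ := h3
            have hd0 : 0 < d := Nat.pos_of_ne_zero (by
              rintro rfl; exact NeZero.ne m (by rw [hd, mul_zero]))
            set e : ZMod m := ((d : ℕ) : ZMod m) with he
            have he0 : e ≠ 0 := by
              intro h
              rw [he, ZMod.natCast_eq_zero_iff] at h
              have := Nat.le_of_dvd hd0 h
              omega
            have hord : addOrderOf e = 2 := by
              have : Fact (Nat.Prime 2) := ⟨Nat.prime_two⟩
              apply addOrderOf_eq_prime _ he0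
              have h4 : (2 : ℕ) • e = ((2 * d : ℕ) : ZMod m) := by
                rw [he, nsmul_eq_mul]; push_cast; ring
              rw [h4, ← hd]; simp
            have hle : ¬ l ∣ addOrderOf e := by
              rw [hord]
              intro h
              exact hl2 ((Nat.prime_dvd_prime_iff_eq hl Nat.prime_two).mp h)
            have key : ∀ x : ZMod m, x ≠ 0 → R x → Relation.EqvGen (Link p) x e := by
              intro x hx0 hx
              apply Relation.EqvGen.rel
              rcases hx with h | h
              · exact ⟨hx0, he0, Or.inr (Or.inl ⟨h, by rw [hord]⟩)⟩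
              · exact ⟨hx0, he0, Or.inr (Or.inr fun t => by rw [hW x h t, hW e hle t])⟩
            exact (key b hb0 h1).trans _ _ _ ((key c hc0 h2).symm _ _)
          · have h4 : ∀ x : ZMod m, R x → ¬ l ∣ addOrderOf x := by
              intro x hx
              rcases hx with h | h
              · exact absurd (h.trans (addOrderOf_dvd_level x)) h3
              · exact h
            exact Relation.EqvGen.rel _ _ ⟨hb0, hc0, Or.inr (Or.inr fun t => by
              rw [hW b (h4 b h1) t, hW c (h4 c h2) t])⟩
        · exfalso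
          simp only [if_pos h1, if_neg h2] at hbc
          exact hnR c h2 hbc.symm
      · by_cases h2 : R c
        · exfalso
          simp only [if_neg h1, if_pos h2] at hbc
          exact hnR b h1 hbc
        · simp only [if_neg h1, if_neg h2] at hbc
          exact Relation.EqvGen.rel _ _ ⟨hb0, hc0, Or.inl hbc⟩
    constructor
    · exact fun h => h.trans _ _ _ hlink
    · exact fun h => h.trans _ _ _ (hlink.symm _ _)

/-- **Main theorem.** -/
theorem three_main {m n k l a m' : ℕ} (hp : p.Prime) (hn : 0 < n) (hk : k = 1 ∨ k = 2)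
    (hkn : k * n = m) (hn2 : ¬ 2 ∣ n) (hpm : p.Coprime m) (hQR : PQR n)
    (hsq : ∀ l : ℕ, l.Prime → l ∣ n → IsSquare ((p : ℕ) : ZMod l))
    (hl : l.Prime) (hl3 : l % 4 = 3) (hm' : l ^ a * m' = m) (hlm : ¬ l ∣ m') {r : ℕ}
    (hr : (p : ZMod m') ^ r = -1)
    {s : Multiset (ZMod m)} (hs : IsTate p m s) (hne : s ≠ 0) :
    ∃ N : ℕ, 0 < N ∧ p.Coprime N ∧ ∀ M : ℕ, N * m = M →
      H916T.Generated M (ZBase p M) (s.map (iota N : ZMod m → ZMod M)) := by
  have hk0 : 0 < k := by omega
  have hm : 0 < m := by rw [← hkn]; exact Nat.mul_pos hk0 hn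
  have hz1 : NeZero m := ⟨hm.ne'⟩
  have hm4 : ¬ 4 ∣ m := by
    rintro ⟨x, hx⟩
    apply hn2
    rcases hk with rfl | rfl
    · exact ⟨2 * x, by rw [one_mul] at hkn; rw [hkn, hx]; ring⟩
    · exact ⟨x, by rw [hx] at hkn; omega⟩
  have hl2 : l ≠ 2 := by rintro rfl; omega
  have hrel : Rel0 p s := fun t => hs.W_sum hpm t
  refine parity_main hp (hu_all hp) (hb_all hp) hm hm4 hpm hs hne ?_
  intro x
  exact link_parity3 hl2 (fun b hb t => W_ss hm' hl hlm hpm hr hb t) hl hs.1 hs.2.1
    (fun S hS h2 => parity_all3 hn hk hkn hn2 hpm hQR hsq hrel S hS hl3 h2) x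

end Pool.Agent.H916N
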