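import Pool.Agent.H916Q.Assemble
import Pool.Agent.H916T.Super

/-!
# Parities for degrees with one prime factor congruent to three modulo four
-/

set_option linter.unusedSectionVars false

namespace Pool.Agent.H916N

open Finset Pool.Agent.H916R2 Pool.Agent.H916T Pool.Agent.H916U Pool.Agent.H916Z Pool.Agent.H916Q

section

variable {m : ℕ}

/-- the product of the Legendre characters -/
noncomputable def phiS (S : Finset (PF m)) : Finset (PF m) → (∀ i, GG m i) → ℤ :=
  fun U x => if U = S then ∏ i ∈ S, leg (x i) else 0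

lemma prod_single {S : Finset (PF m)} {k : PF m} (hk : k ∉ S) (y : GG m k) (x : ∀ i, GG m i) :
    ∏ i ∈ S, leg ((Pi.mulSingle k y * x) i) = ∏ i ∈ S, leg (x i) := by
  refine prod_congr rfl fun i hi => ?_
  have : i ≠ k := fun h => hk (h ▸ hi)
  rw [Pi.mul_apply, Pi.mulSingle_eq_of_ne this, one_mul]

lemma phiS_dist (hm2 : ¬ 2 ∣ m) (hQR : PQR m) {S : Finset (PF m)} {i0 : PF m} (hi0 : i0 ∈ S)
    (h3 : (i0 : ℕ) % 4 = 3) (hrest : ∀ i ∈ S.erase i0, (i : ℕ) % 4 = 1) :
    Dist (sg m) (tt m) (phiS S) where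
  ind := fun U k hk y x => by
    unfold phiS
    by_cases h : U = S
    · subst h
      rw [if_pos rfl, if_pos rfl, prod_single hk]
    · rw [if_neg h, if_neg h]
  odd := fun U x => by
    unfold phiS
    by_cases h : U = S
    · rw [if_pos h, if_pos h]
      rw [← mul_prod_erase S _ hi0, ← mul_prod_erase S (fun i => leg (x i)) hi0]
      have h1 : leg ((sg m * x) i0) = - leg (x i0) := by
        rw [Pi.mul_apply, leg_mul]
        simp only [sg]
        rw [leg_neg_one' h3, neg_one_mul]
      have h2 : ∏ i ∈ S.erase i0, leg ((sg m * x) i) = ∏ i ∈ S.erase i0, leg (x i) := by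
        refine prod_congr rfl fun i hi => ?_
        rw [Pi.mul_apply, leg_mul]
        simp only [sg]
        rw [leg_neg_one (hrest i hi), one_mul]
      rw [h1, h2]; ring
    · rw [if_neg h, if_neg h, neg_zero]
  rel := fun U j hj => by
    funext x
    unfold NN DD phiS
    by_cases h : U = S
    · subst h
      have h4 : U.erase j ≠ U := by
        intro h
        have h' := hj
        rw [← h] at h'
        exact notMem_erase j U h'
      simp only [if_true, if_neg h4, sub_zero]
      have h5 : ∀ y : GG m j, ∏ i ∈ U, leg ((Pi.mulSingle j y * x) i) =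
          leg (y * x j) * ∏ i ∈ U.erase j, leg (x i) := by
        intro y
        rw [← mul_prod_erase U _ hj, Pi.mul_apply, Pi.mulSingle_eq_same,
          prod_single (notMem_erase j U)]
      rw [sum_congr rfl fun y _ => h5 y, ← sum_mul]
      have h6 : ∑ y : GG m j, leg (y * x j) = 0 := by
        rw [← leg_sum (pf_ne_two hm2 j)]
        exact Fintype.sum_equiv (Equiv.mulRight (x j)) _ _ fun y => rfl
      rw [h6, zero_mul]
    · simp only [if_neg h, sum_const_zero]
      by_cases h4 : U.erase j = S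
      · simp only [if_pos h4]
        have hjS : j ∉ S := by rw [← h4]; exact notMem_erase j U
        have h5 : ∏ i ∈ S, leg ((tt m j * x) i) = ∏ i ∈ S, leg (x i) := by
          refine prod_congr rfl fun i hi => ?_
          have hij : i ≠ j := fun h => hjS (h ▸ hi)
          rw [Pi.mul_apply, leg_mul, leg_tt hQR hij, one_mul]
        rw [h5, sub_self]
      · simp only [if_neg h4, sub_self]
  zero := fun x => by
    unfold phiS
    rw [if_neg]
    intro h
    rw [← h] at hi0
    simp at hi0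

lemma phiS_inv {S : Finset (PF m)} (v : ∀ i, GG m i) (hv : ∀ i, leg (v i) = 1)
    (U : Finset (PF m)) (x : ∀ i, GG m i) : phiS S U (v * x) = phiS S U x := by
  unfold phiS
  by_cases h : U = S
  · rw [if_pos h, if_pos h]
    refine prod_congr rfl fun i _ => ?_
    rw [Pi.mul_apply, leg_mul, hv, one_mul]
  · rw [if_neg h, if_neg h]

lemma PsiN_inv (hm0 : 0 < m) {p : ℕ} (hp : p.Coprime m)
    (hsq : ∀ l : ℕ, l.Prime → l ∣ m → IsSquare ((p : ℕ) : ZMod l)) {S : Finset (PF m)}
    (hφ : Dist (sg m) (tt m) (phiS S)) (x : ℕ) :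
    PsiN m (phiS S) (p * x) = PsiN m (phiS S) x := by
  obtain ⟨g, x', n, hg, hx, hm, hc⟩ := exists_dec hm0 x
  have hpn : p.Coprime n := Nat.Coprime.coprime_dvd_right (hm ▸ Dvd.intro_left g rfl) hp
  have hc' : Nat.Coprime (p * x') n := Nat.Coprime.mul_left hpn hc
  rw [PsiN_eval hg hx hm hc, PsiN_eval (x := p * x) (g := g) (x' := p * x') (n := n) hg
    (by rw [hx]; ring) hm hc']
  congr 1
  have hnp : ∀ i : PF m, ¬ (i : ℕ) ∣ p := by
    intro i h
    have hip : (i : ℕ).Prime := Fact.out
    exact not_dvd_of_coprime hip hp (Nat.dvd_of_mem_primeFactors i.2) h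
  have h1 : phiS S (TT m n) (vec m (p * x')) = phiS S (TT m n) (vec m p * vec m x') := by
    refine hφ.congr fun i hi => ?_
    rw [mem_TT] at hi
    have hip : (i : ℕ).Prime := Fact.out
    have h2 : ¬ (i : ℕ) ∣ x' := not_dvd_of_coprime hip hc hi
    have h3 : ¬ (i : ℕ) ∣ p * x' := not_dvd_of_coprime hip hc' hi
    apply Units.ext
    rw [Pi.mul_apply, Units.val_mul, vec_val h3, vec_val h2, vec_val (hnp i)]
    push_cast; ring
  rw [h1]
  refine phiS_inv _ (fun i => ?_) _ _
  apply leg_sq
  rw [vec_val (hnp i)]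
  exact hsq i Fact.out (Nat.dvd_of_mem_primeFactors i.2)

variable {p : ℕ}

theorem parity_three [NeZero m] (hm2 : ¬ 2 ∣ m) (hp : p.Coprime m) (hQR : PQR m)
    (hsq : ∀ l : ℕ, l.Prime → l ∣ m → IsSquare ((p : ℕ) : ZMod l))
    {s : Multiset (ZMod m)} (hs : Rel0 p s) (S : Finset ℕ) {l : ℕ} (hlS : l ∈ S)
    (hl3 : l % 4 = 3) : Even (s.countP (Supp S)) := by
  by_cases hSm : S ⊆ m.primeFactors
  · set S' : Finset (PF m) := univ.filter (fun i : PF m => (i : ℕ) ∈ S) with hS'
    obtain ⟨i0, hi0⟩ : ∃ i0 : PF m, (i0 : ℕ) = l := ⟨⟨l, hSm hlS⟩, rfl⟩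
    have hi0S : i0 ∈ S' := mem_filter.mpr ⟨mem_univ _, by rw [hi0]; exact hlS⟩
    have hi3 : (i0 : ℕ) % 4 = 3 := by rw [hi0]; exact hl3
    have hrest : ∀ i ∈ S'.erase i0, (i : ℕ) % 4 = 1 := by
      intro i hi
      have hip : (i : ℕ).Prime := Fact.out
      have hjp : (i0 : ℕ).Prime := Fact.out
      have h1 := pf_ne_two hm2 i
      have h2 := hip.eq_two_or_odd
      rcases (show (i : ℕ) % 4 = 1 ∨ (i : ℕ) % 4 = 3 by omega) with h | h
      · exact h
      · exfalso
        have hne : (i : ℕ) ≠ (i0 : ℕ) := fun h => (mem_erase.mp hi).1 (Subtype.ext h)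
        have h4 := ZMod.exists_sq_eq_prime_iff_of_mod_four_eq_three h hi3 hne
        have h5 := hQR i0 i hjp hip (Nat.dvd_of_mem_primeFactors i0.2)
          (Nat.dvd_of_mem_primeFactors i.2) hne.symm
        have h6 := hQR i i0 hip hjp (Nat.dvd_of_mem_primeFactors i.2)
          (Nat.dvd_of_mem_primeFactors i0.2) hne
        exact h4.mp h5 h6
    have hφ : Dist (sg m) (tt m) (phiS S') := phiS_dist hm2 hQR hi0S hi3 hrest
    have hφ1 : ∀ x, ¬ 2 ∣ phiS S' S' x := by
      intro x h
      unfold phiS at h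
      rw [if_pos rfl] at h
      obtain ⟨i, _, h'⟩ := (Int.prime_two.dvd_finsetProd_iff _).mp h
      exact leg_odd _ h'
    have hφ2 : ∀ U, U ≠ S' → ∀ x, 2 ∣ phiS S' U x := by
      intro U hU x
      unfold phiS
      rw [if_neg hU]
      exact dvd_zero 2
    have hOD : OD (Psi (phiS S')) := Psi_od hφ hm2
    have hinv : ∀ a, Psi (phiS S') ((p : ZMod m) * a) = Psi (phiS S') a := by
      intro a
      have h1 : (p : ZMod m) * a = ((p * a.val : ℕ) : ZMod m) := by
        push_cast; rw [ZMod.natCast_zmod_val]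
      rw [h1, Psi_cast hφ, PsiN_inv (NeZero.pos m) hp hsq hφ]
      rfl
    obtain ⟨k, hk, hk0⟩ := H916D.torsion_sum hp hOD hinv s hs
    have hsum : (s.map (Psi (phiS S'))).sum = 0 := by
      rw [nsmul_eq_mul] at hk0
      rcases mul_eq_zero.mp hk0 with h | h
      · exact absurd (by exact_mod_cast h) hk.ne'
      · exact h
    refine countP_parity _ (Psi (phiS S')) ?_ s hsum
    intro a
    rw [Psi_parity hm2 hφ1 hφ2, Ne, TT_eq_iff hSm]
  · have h1 : s.countP (Supp S) = 0 := by
      rw [Multiset.countP_eq_zero]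
      intro a _ ha
      apply hSm
      rw [← ha]
      exact Nat.primeFactors_mono (addOrderOf_dvd_level a) (NeZero.ne m)
    rw [h1]
    exact Even.zero

end

end Pool.Agent.H916N
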